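import Pool.Agent.Lib.MP_c2491a_co.Data

namespace Pool.Agent.Lib.MP_c2491a_co.Data

theorem hAU : ∀ (i : Fin 27) (k : Fin 9), ∑ j, A i j * U j k = U i k := by
  decide +kernel

theorem hAM : ∀ (t : Fin 31) (i : Fin 27), ∑ j, A i j * M t j = 14 + M t i := by
  decide +kernel

theorem hA1 : ∀ (i : Fin 27), ∑ j, A i j = 22 := by
  decide +kernel

theorem hC : ∀ (m j : Fin 27), ∑ i, C m i * (A i j - if i = j then 1 else 0) =
    14 * ((if m = j then 1 else 0) - ∑ k : Fin 9, U m k * (if k.1 = j.1 then 1 else 0)) := by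
  decide +kernel

theorem hM_nonneg : ∀ (t : Fin 31) (i : Fin 27), 0 ≤ M t i := by
  decide +kernel

theorem hM_single : ∀ (i k : Fin 27), k ≠ i → ∃ t : Fin 31, M t i = 0 ∧ M t k ≠ 0 := by
  decide +kernel

/-- Bit masks of the supports of the 31 fractional perfect matchings. -/
def masks : List ℕ :=
  [22361096, 100682608, 11174023, 75797604, 5983488, 52437271, 100807368, 68534971, 31795409, 22584117, 61686830, 48945864, 68362379, 100808004, 53232314, 68190519, 75704513, 5935752, 36324614, 68502570, 56899420, 32328800, 22096145, 48975808, 65975620, 32843931, 22929208, 57166704, 128398543, 28082359, 22844088]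

/-- Union of the supports (in a list) that avoid both `i` and `j`. -/
def orAll (i j : ℕ) : List ℕ → ℕ
  | [] => 0
  | s :: L => if (s.testBit i || s.testBit j) then orAll i j L else s ||| orAll i j L

theorem orAll_spec (i j k : ℕ) : ∀ L : List ℕ, (orAll i j L).testBit k = true →
    ∃ s ∈ L, s.testBit i = false ∧ s.testBit j = false ∧ s.testBit k = true
  | [], h => by simp [orAll] at h
  | s :: L, h => by
      unfold orAll at h
      split_ifs at h with hc
      · obtain ⟨u, hu, h1⟩ := orAll_spec i j k L h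
        exact ⟨u, List.mem_cons_of_mem _ hu, h1⟩
      · rw [Nat.testBit_or, Bool.or_eq_true] at h
        rcases h with h | h
        · refine ⟨s, List.mem_cons_self, ?_, ?_, h⟩
          · cases hs : s.testBit i
            · rfl
            · simp [hs] at hc
          · cases hs : s.testBit j
            · rfl
            · simp [hs] at hc
        · obtain ⟨u, hu, h1⟩ := orAll_spec i j k L h
          exact ⟨u, List.mem_cons_of_mem _ hu, h1⟩

theorem orAll_eq : ∀ (i j : Fin 27), disj i j = true →
    orAll i.1 j.1 masks = ((2 ^ 27 - 1) ^^^ (2 ^ i.1)) ^^^ (2 ^ j.1) := by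
  decide +kernel

theorem masks_spec : ∀ s ∈ masks, ∃ t : Fin 31, ∀ i : Fin 27,
    (M t i = 0 ↔ s.testBit i.1 = false) := by
  decide +kernel

theorem hM_pair (i j k : Fin 27) (hd : disj i j = true) (hki : k ≠ i) (hkj : k ≠ j) :
    ∃ t : Fin 31, M t i = 0 ∧ M t j = 0 ∧ M t k ≠ 0 := by
  have hk : (orAll i.1 j.1 masks).testBit k.1 = true := by
    rw [orAll_eq i j hd]
    have h1 : i.1 ≠ k.1 := fun h => hki (Fin.ext h.symm)
    have h2 : j.1 ≠ k.1 := fun h => hkj (Fin.ext h.symm)
    rw [Nat.testBit_xor, Nat.testBit_xor, Nat.testBit_two_pow_sub_one,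
      Nat.testBit_two_pow_of_ne h1, Nat.testBit_two_pow_of_ne h2]
    simp [k.2]
  obtain ⟨s, hs, h1, h2, h3⟩ := orAll_spec _ _ _ _ hk
  obtain ⟨t, ht⟩ := masks_spec s hs
  exact ⟨t, (ht i).2 h1, (ht j).2 h2, fun h => by simp [(ht k).1 h] at h3⟩

theorem hnonedge : ∀ (i j : Fin 27), i ≠ j → disj i j = false →
    wit1 i j ≠ i ∧ wit1 i j ≠ j ∧
      ∀ c : Fin 9, U i c + U j c = U (wit1 i j) c + U (wit2 i j) c := by
  decide +kernel

theorem hdisj_symm : ∀ (i j : Fin 27), disj i j = disj j i := by
  decide +kernel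

theorem hdisj_irrefl : ∀ (i : Fin 27), disj i i = false := by
  decide +kernel

theorem hUinj : ∀ (i j : Fin 27), (∀ k, U i k = U j k) → i = j := by
  decide +kernel

theorem hN : ∀ (k l : Fin 9), ∑ j : Fin 9, (∑ i : Fin 27, U i k * U i j) * N j l =
    if k = l then 1960362 else 0 := by
  decide +kernel

/-- The invariant quadratic form evaluated at the vertices. -/
def q (i : Fin 27) : ℤ := ∑ k : Fin 9, ∑ l : Fin 9, U i k * N k l * U i l

theorem hq : ∀ (i j : Fin 27), q i = q j → i = j := by
  decide +kernel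

theorem hUunit : ∀ (k l : Fin 9), U (Fin.castLE (by norm_num) k) l = if k = l then 1 else 0 := by
  decide +kernel

end Pool.Agent.Lib.MP_c2491a_co.Data
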